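import Pool.Agent.H66.NF.PTSb

/-!
# PRN, row PTS: points which are different modulo doubles
-/

set_option autoImplicit false

namespace Pool.NF.PTS66

open Polynomial WeierstrassCurve Pool.HYP Pool.TOW Pool.AVS Pool.T1

section Curve

variable {L : Type} [Field L] [DecidableEq L] {Γ : Type} [LinearOrderedCommGroupWithZero Γ]
  {v : Valuation L Γ} {γ : Γ} (h : Uf v γ) {a b c : L}

omit [DecidableEq L] in
theorem der1 {S : Type} [CommRing S] (u w z : S) :
    (X ^ 3 + C u * X ^ 2 + C w * X + C z : S[X]).derivative.eval 1 = 3 + 2 * u + w := by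
  simp
  ring

omit [DecidableEq L] in
theorem ns_of {x y : L} (h2 : (2 : L) ≠ 0) (hy : y ≠ 0)
    (he : y ^ 2 = x ^ 3 + a * x ^ 2 + b * x + c) :
    (WC a b c).toAffine.Nonsingular x y := by
  rw [Affine.nonsingular_iff']
  refine ⟨(eqn_iff a b c x y).mpr he, Or.inr ?_⟩
  simp only [WC]
  have : (2 : L) * y ≠ 0 := mul_ne_zero h2 hy
  intro h0
  apply this
  linear_combination h0

include h

omit [DecidableEq L] in
theorem f_ord {x : L} {o : ℤ} (ha : V v γ 0 a) (hb : V v γ 0 b) (hc : V v γ 0 c)
    (hx : E v γ o x) (ho : o < 0) : E v γ (3 * o) (x ^ 3 + a * x ^ 2 + b * x + c) := by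
  have e1 : x ^ 3 + a * x ^ 2 + b * x + c = x ^ 3 + (a * x ^ 2 + b * x + c) := by ring
  rw [e1]
  have h3 : E v γ (3 * o) (x ^ 3) := by
    have := E_pow h hx 3
    exact_mod_cast this
  have h2 : E v γ (2 * o) (x ^ 2) := by
    have := E_pow h hx 2
    exact_mod_cast this
  refine E_add h h3 (n := 2 * o) ?_ (by omega)
  refine V_add (V_add ?_ ?_) ?_
  · exact V_mono h (V_mul h ha (E_V h2)) (by omega)
  · exact V_mono h (V_mul h hb (E_V hx)) (by omega)
  · exact V_mono h hc (by omega)

omit [DecidableEq L] in
theorem N_ord {x : L} {o : ℤ} (ha : V v γ 0 a) (hb : V v γ 0 b) (hc : V v γ 0 c)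
    (h2 : V v γ 0 (2 : L)) (hx : E v γ o x) (ho : o < 0) :
    E v γ (4 * o) (x ^ 4 - 2 * b * x ^ 2 - 8 * c * x + b ^ 2 - 4 * a * c) := by
  have e1 : x ^ 4 - 2 * b * x ^ 2 - 8 * c * x + b ^ 2 - 4 * a * c =
      x ^ 4 + (b * b - 2 * 2 * a * c - 2 * b * x ^ 2 - 2 * 2 * 2 * c * x) := by ring
  rw [e1]
  have h4 : E v γ (4 * o) (x ^ 4) := by
    have := E_pow h hx 4
    exact_mod_cast this
  have h3 : E v γ (2 * o) (x ^ 2) := by
    have := E_pow h hx 2
    exact_mod_cast this
  refine E_add h h4 (n := 2 * o) ?_ (by omega)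
  refine V_sub (V_sub (V_sub ?_ ?_) ?_) ?_
  · exact V_mono h (V_mul h hb hb) (by omega)
  · exact V_mono h (V_mul h (V_mul h (V_mul h h2 h2) ha) hc) (by omega)
  · exact V_mono h (V_mul h (V_mul h h2 hb) (E_V h3)) (by omega)
  · exact V_mono h (V_mul h (V_mul h (V_mul h (V_mul h h2 h2) h2) hc) (E_V hx)) (by omega)

/-- Doubling. -/
theorem dbl_ord {x y : L} {o e : ℤ} (ha : V v γ 0 a) (hb : V v γ 0 b) (hc : V v γ 0 c)
    (he : E v γ e (2 : L)) (he0 : 0 ≤ e) (h1 : (WC a b c).toAffine.Nonsingular x y)
    (hx : E v γ o x) (ho : o < 0) :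
    ∃ (x3 y3 : L) (h3 : (WC a b c).toAffine.Nonsingular x3 y3),
      (Affine.Point.some x y h1 + Affine.Point.some x y h1 = Affine.Point.some x3 y3 h3) ∧
      E v γ (o - 2 * e) x3 := by
  have h2 : (2 : L) ≠ 0 := E_ne h he
  have heq := (eqn_iff a b c x y).1 h1.1
  have hf := f_ord h ha hb hc hx ho
  rw [← heq] at hf
  have hy : y ≠ 0 := by
    rintro rfl
    have := E_ne h hf
    simp at this
  obtain ⟨x3, y3, h3, h4, h5⟩ := dbl_pt a b c h2 h1 hy
  refine ⟨x3, y3, h3, h4, ?_⟩
  have hN := N_ord h ha hb hc (V_mono h (E_V he) he0) hx ho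
  rw [← h5] at hN
  have h6 : E v γ (2 * e + 3 * o) (4 * y ^ 2) := by
    have h7 := E_mul h (E_mul h he he) hf
    have h8 : (2 * 2 : L) * y ^ 2 = 4 * y ^ 2 := by ring
    rw [h8] at h7
    have h9 : e + e + 3 * o = 2 * e + 3 * o := by ring
    rwa [h9] at h7
  have h7 : x3 = 4 * y ^ 2 * x3 / (4 * y ^ 2) := by
    have := E_ne h h6
    rw [mul_div_cancel_left₀ _ this]
  rw [h7]
  have h8 := E_div h hN h6
  have h9 : 4 * o - (2 * e + 3 * o) = o - 2 * e := by ring
  rwa [h9] at h8

/-- The subgroup of the points whose first coordinate is `0` or has order at most `-m`. -/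
def Hm (h : Uf v γ) (ha : V v γ 0 a) (hb : V v γ 0 b) (hc : V v γ 0 c) {e : ℤ}
    (he : E v γ e (2 : L)) (he0 : 0 ≤ e) (m : ℤ) (hm : 0 < m) :
    AddSubgroup (WC a b c).toAffine.Point where
  carrier := {P | P = 0 ∨ ∃ (x y : L) (h : (WC a b c).toAffine.Nonsingular x y),
    P = Affine.Point.some x y h ∧ x ≠ 0 ∧ V v γ m x⁻¹}
  zero_mem' := Or.inl rfl
  neg_mem' := by
    rintro P (rfl | ⟨x, y, h1, rfl, h2, h3⟩)
    · exact Or.inl neg_zero
    · exact Or.inr ⟨x, _, _, Affine.Point.neg_some h1, h2, h3⟩
  add_mem' := by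
    rintro P Q (rfl | ⟨x1, y1, h1, rfl, hx1, hv1⟩) hQ
    · rw [zero_add]
      exact hQ
    · rcases hQ with rfl | ⟨x2, y2, h2, rfl, hx2, hv2⟩
      · rw [add_zero]
        exact Or.inr ⟨x1, y1, h1, rfl, hx1, hv1⟩
      · obtain ⟨o1, ho1⟩ := E_ex h hx1
        obtain ⟨o2, ho2⟩ := E_ex h hx2
        have hm1 := (E_V_iff h (E_inv ho1)).mp hv1
        have hm2 := (E_V_iff h (E_inv ho2)).mp hv2
        have heq1 := (eqn_iff a b c x1 y1).1 h1.1
        have heq2 := (eqn_iff a b c x2 y2).1 h2.1
        by_cases hx : x1 = x2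
        · subst hx
          have h3 : (y1 - y2) * (y1 + y2) = 0 := by
            linear_combination heq1 - heq2
          rcases mul_eq_zero.mp h3 with h4 | h4
          · have h5 : y1 = y2 := sub_eq_zero.mp h4
            subst h5
            obtain ⟨x3, y3, h6, h7, h8⟩ := dbl_ord h ha hb hc he he0 h1 ho1 (by omega)
            refine Or.inr ⟨x3, y3, h6, h7, E_ne h h8, ?_⟩
            exact V_mono h (E_V (E_inv h8)) (by omega)
          · left
            apply Affine.Point.add_of_Y_eq rfl
            simp only [Affine.negY, WC]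
            linear_combination h4
        · obtain ⟨x3, y3, h3, h4, h5⟩ := add_pts a b c h1 h2 hx
          obtain ⟨x4, y4, h6, h7, h8⟩ := sub_pts a b c h1 h2 hx
          obtain ⟨hp, hs⟩ := sum_prod a b c hx heq1 heq2 h5 h8
          obtain ⟨h9, h10⟩ := closure h ha hb hc (E_V he) he0 hm ho1 ho2 (by omega) (by omega)
            hx hp hs
          exact Or.inr ⟨x3, y3, h3, h4, h9, h10⟩

end Curve

end Pool.NF.PTS66

namespace Pool.NF

open Polynomial WeierstrassCurve Pool.HYP Pool.TOW Pool.AVS Pool.T1 PTS66

theorem pts : PTSStmt := by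
  classical
  intro L _ _ O hD a b c hirr
  have hdvr := hD.dvr
  have hcomp := hD.complete
  have hfin := hD.fin
  obtain ⟨ϖ, hϖ⟩ := IsDiscreteValuationRing.exists_irreducible O
  have h := uf_of O hdvr ϖ hϖ
  set γ := O.valuation (ϖ : L) with hγ
  have hO : ∀ z : L, V O.valuation γ 0 z ↔ z ∈ O := V0_iff O γ
  have hϖE : E O.valuation γ 1 (ϖ : L) := by
    unfold E
    rw [zpow_one]
  have ha : V O.valuation γ 0 (a : L) := (hO _).mpr a.2
  have hb : V O.valuation γ 0 (b : L) := (hO _).mpr b.2
  have hc : V O.valuation γ 0 (c : L) := (hO _).mpr c.2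
  -- the order of two
  have hc2 : ((2 : O) : L) = 2 := rfl
  have h2O : (2 : O) ≠ 0 := by
    intro h0
    apply hD.two
    rw [← hc2, h0]
    rfl
  obtain ⟨e, u2, hu2⟩ := IsDiscreteValuationRing.eq_unit_mul_pow_irreducible h2O hϖ
  have heE : E O.valuation γ (e : ℤ) (2 : L) := by
    have h1 : (2 : L) = ((u2 : O) : L) * (ϖ : L) ^ e := by
      rw [← hc2, hu2]
      push_cast
      rfl
    unfold E
    rw [h1, map_mul, map_pow, (ValuationSubring.valuation_eq_one_iff O (u2 : O)).mp u2.isUnit,
      one_mul, zpow_natCast]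
  have he1 : 1 ≤ e := by
    by_contra hcon
    have h0 : e = 0 := by omega
    apply hD.dy
    rw [h0, pow_zero, mul_one] at hu2
    have h3 : (2 : L)⁻¹ = ((u2⁻¹ : Oˣ) : O) := by
      have h4 : ((u2 : O) : L) = 2 := by
        rw [← hu2, hc2]
      have h5 : ((u2 : O) : L) * (((u2⁻¹ : Oˣ) : O) : L) = 1 := by
        show ((((u2 : O) * ((u2⁻¹ : Oˣ) : O)) : O) : L) = ((1 : O) : L)
        rw [Units.mul_inv]
      rw [h4] at h5
      exact (eq_inv_of_mul_eq_one_right h5).symm
    rw [h3]
    exact Subtype.property _
  have he0 : (0 : ℤ) ≤ e := by omega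
  have hspan : Ideal.span {(2 : O)} = Ideal.span {ϖ} ^ e := by
    rw [Ideal.span_singleton_pow, Ideal.span_singleton_eq_span_singleton]
    rw [hu2]
    exact associated_unit_mul_left _ _ u2.isUnit
  have hmax : IsLocalRing.maximalIdeal O = Ideal.span {ϖ} := hϖ.maximalIdeal_eq
  have hfinq : ∀ n : ℕ, Finite (O ⧸ Ideal.span {ϖ} ^ n) := by
    intro n
    have : Finite (O ⧸ Ideal.span {ϖ}) := by
      rw [← hmax]
      exact hfin
    exact Ideal.finite_quotient_pow (Submodule.fg_span_singleton ϖ) n
  -- the curve has no point with y = 0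
  have hroot : ∀ x : O, x ^ 3 + a * x ^ 2 + b * x + c ∉ IsLocalRing.maximalIdeal O := by
    intro x hx
    have h3 : (rd O (X ^ 3 + C a * X ^ 2 + C b * X + C c)).IsRoot (IsLocalRing.residue O x) := by
      rw [IsRoot.def, eval_map, eval₂_at_apply, IsLocalRing.residue_eq_zero_iff]
      simpa using hx
    have h4 := Polynomial.degree_eq_one_of_irreducible_of_root hirr h3
    have h5 : (rd O (X ^ 3 + C a * X ^ 2 + C b * X + C c)).degree = 3 := by
      have h6 : rd O (X ^ 3 + C a * X ^ 2 + C b * X + C c) =
          X ^ 3 + C (IsLocalRing.residue O a) * X ^ 2 + C (IsLocalRing.residue O b) * X +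
            C (IsLocalRing.residue O c) := by
        simp [rd]
      rw [h6]
      compute_degree!
    rw [h5] at h4
    exact absurd h4 (by norm_num)
  have hyE : ∀ x y : L, x ∈ O → y ^ 2 = x ^ 3 + a * x ^ 2 + b * x + c → E O.valuation γ 0 y := by
    intro x y hx hy
    have h3 := hroot ⟨x, hx⟩
    have h4 : E O.valuation γ 0 (y ^ 2) := by
      rw [hy]
      rw [ValuationSubring.valuation_lt_one_iff] at h3
      have h5 := ValuationSubring.valuation_le_one O ((⟨x, hx⟩ : O) ^ 3 + a * (⟨x, hx⟩ : O) ^ 2 +
        b * ⟨x, hx⟩ + c)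
      have h6 := le_antisymm h5 (not_lt.mp h3)
      unfold E
      rw [zpow_zero]
      simpa using h6
    have h5 : y ≠ 0 := by
      rintro rfl
      have := E_ne h h4
      simp at this
    obtain ⟨n, hn⟩ := E_ex h h5
    have h6 := E_pow h hn 2
    have h7 := E_uniq h h4 h6
    have h8 : n = 0 := by
      push_cast at h7
      omega
    rwa [h8] at hn
  -- the subgroup
  let M : ℤ := 2 + 2 * e
  have hM : 0 < M := by
    show (0 : ℤ) < 2 + 2 * e
    omega
  let H := Hm h ha hb hc heE he0 M hM
  have hmem : ∀ (x y : L) (h' : (WC (a : L) b c).toAffine.Nonsingular x y) (o : ℤ),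
      E O.valuation γ o x → (Affine.Point.some x y h' ∈ H ↔ M ≤ -o) := by
    intro x y h' o ho
    constructor
    · rintro (h3 | ⟨x', y', h'', h3, h4, h5⟩)
      · exact absurd h3 (Affine.Point.some_ne_zero h')
      · rw [Affine.Point.some.injEq] at h3
        rw [← h3.1] at h5
        exact (E_V_iff h (E_inv ho)).mp h5
    · intro h3
      exact Or.inr ⟨x, y, h', rfl, E_ne h ho, V_mono h (E_V (E_inv ho)) h3⟩
  -- finiteness of the quotient
  let k : ℕ := 2 + 2 * e
  let A := O ⧸ Ideal.span {ϖ} ^ k
  have hAfin : Finite A := hfinq k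
  let red : L → A := fun z => if hz : z ∈ O then Ideal.Quotient.mk _ ⟨z, hz⟩ else 0
  have hred : ∀ z z' : L, z ∈ O → z' ∈ O → red z = red z' → V O.valuation γ (k : ℤ) (z - z') := by
    intro z z' hz hz' heq
    have h3 : red z = Ideal.Quotient.mk _ ⟨z, hz⟩ := dif_pos hz
    have h4 : red z' = Ideal.Quotient.mk _ ⟨z', hz'⟩ := dif_pos hz'
    rw [h3, h4, Ideal.Quotient.eq, Ideal.span_singleton_pow, Ideal.mem_span_singleton] at heq
    have h5 := (V_dvd O ϖ hϖ k (⟨z, hz⟩ - ⟨z', hz'⟩)).mpr heq
    simpa using h5
  let φ : (WC (a : L) b c).toAffine.Point → Option (Bool × A × A × A) := fun P =>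
    match P with
    | .zero => none
    | .some x y _ => some (decide (x ∈ O), red x, red y, red x⁻¹)
  have hφ : ∀ P Q, φ P = φ Q → P - Q ∈ H ∨ P + Q ∈ H := by
    intro P Q hPQ
    cases P with
    | zero =>
      cases Q with
      | zero =>
        left
        exact Or.inl (sub_self _)
      | some x2 y2 h2 => simp [φ] at hPQ
    | some x1 y1 h1 =>
      cases Q with
      | zero => simp [φ] at hPQ
      | some x2 y2 h2 =>
        simp only [φ, Option.some.injEq, Prod.mk.injEq, decide_eq_decide] at hPQ
        obtain ⟨hi, hr1, hr2, hr3⟩ := hPQ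
        have heq1 := (eqn_iff (a : L) b c x1 y1).1 h1.1
        have heq2 := (eqn_iff (a : L) b c x2 y2).1 h2.1
        by_cases hx : x1 = x2
        · subst hx
          have h3 : (y1 - y2) * (y1 + y2) = 0 := by
            linear_combination heq1 - heq2
          rcases mul_eq_zero.mp h3 with h4 | h4
          · have h5 : y1 = y2 := sub_eq_zero.mp h4
            subst h5
            left
            exact Or.inl (sub_self _)
          · right
            left
            apply Affine.Point.add_of_Y_eq rfl
            simp only [Affine.negY, WC]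
            linear_combination h4
        · obtain ⟨x3, y3, h3, h4, h5⟩ := add_pts (a : L) b c h1 h2 hx
          obtain ⟨x4, y4, h6, h7, h8⟩ := sub_pts (a : L) b c h1 h2 hx
          by_cases hx1 : x1 ∈ O
          · have hx2 : x2 ∈ O := hi.mp hx1
            have hy1 := hyE x1 y1 hx1 heq1
            have hy2 := hyE x2 y2 hx2 heq2
            have hy1O : y1 ∈ O := (hO _).mp (E_V hy1)
            have hy2O : y2 ∈ O := (hO _).mp (E_V hy2)
            have h9 := hred x1 x2 hx1 hx2 hr1
            have h10 := hred y1 y2 hy1O hy2O hr2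
            left
            rw [h7]
            obtain ⟨d, hd⟩ := E_ex h (sub_ne_zero.mpr hx)
            have hkd := (E_V_iff h hd).mp h9
            have hkk : (k : ℤ) = 2 + 2 * e := by
              show ((2 + 2 * e : ℕ) : ℤ) = 2 + 2 * e
              push_cast
              ring
            have hsum : E O.valuation γ (e : ℤ) (y1 + y2) := by
              have e1 : y1 + y2 = 2 * y2 + (y1 - y2) := by ring
              rw [e1]
              have e2 : E O.valuation γ (e : ℤ) (2 * y2) := by
                have := E_mul h heE hy2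
                rwa [add_zero] at this
              exact E_add h e2 h10 (by omega)
            have hlam := E_pow h (E_div h hsum hd) 2
            have hx4 : E O.valuation γ (2 * (e - d)) x4 := by
              rw [h8]
              have e1 : ((y1 + y2) / (x1 - x2)) ^ 2 - (a : L) - x1 - x2 =
                  ((y1 + y2) / (x1 - x2)) ^ 2 + (-(a : L) - x1 - x2) := by ring
              rw [e1]
              have e2 : ((2 : ℕ) : ℤ) * ((e : ℤ) - d) = 2 * (e - d) := by push_cast; ring
              rw [e2] at hlam
              refine E_add h hlam (n := 0) ?_ (by omega)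
              exact V_sub (V_sub (V_neg ha) ((hO _).mpr hx1)) ((hO _).mpr hx2)
            rw [hmem x4 y4 h6 _ hx4]
            show (2 : ℤ) + 2 * e ≤ -(2 * (e - d))
            omega
          · have hx2 : x2 ∉ O := fun h9 => hx1 (hi.mpr h9)
            have hx10 : x1 ≠ 0 := by
              rintro rfl
              exact hx1 (O.zero_mem)
            have hx20 : x2 ≠ 0 := by
              rintro rfl
              exact hx2 (O.zero_mem)
            obtain ⟨o1, ho1⟩ := E_ex h hx10
            obtain ⟨o2, ho2⟩ := E_ex h hx20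
            have ho1' : o1 < 0 := by
              by_contra hcon
              apply hx1
              rw [← hO]
              exact V_mono h (E_V ho1) (by omega)
            have ho2' : o2 < 0 := by
              by_contra hcon
              apply hx2
              rw [← hO]
              exact V_mono h (E_V ho2) (by omega)
            have hi1 : x1⁻¹ ∈ O := (O.mem_or_inv_mem x1).resolve_left hx1
            have hi2 : x2⁻¹ ∈ O := (O.mem_or_inv_mem x2).resolve_left hx2
            have h9 := hred x1⁻¹ x2⁻¹ hi1 hi2 hr3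
            obtain ⟨hp, hs⟩ := sum_prod (a : L) b c hx heq1 heq2 h5 h8
            have hkk : (k : ℤ) = M := by
              show ((2 + 2 * e : ℕ) : ℤ) = 2 + 2 * e
              push_cast
              ring
            rcases either h ha hb hc (E_V heE) he0 ho1 ho2 ho1' ho2' hx h9 hp hs with
              ⟨h10, h11⟩ | ⟨h10, h11⟩
            · right
              rw [h4]
              exact Or.inr ⟨x3, y3, h3, rfl, h10, hkk ▸ h11⟩
            · left
              rw [h7]
              exact Or.inr ⟨x4, y4, h6, rfl, h10, hkk ▸ h11⟩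
  have hfinQ : Finite ((WC (a : L) b c).toAffine.Point ⧸ H) := fin_quot H φ hφ
  -- the points
  have hpt : ∀ t : O, ∃ P : (WC (a : L) b c).toAffine.Point, (V O.valuation γ 1 (t : L)) →
      ∃ r : O, V O.valuation γ 1 ((r : L) - 1) ∧
        r ^ 3 + (a * t ^ 2 - 1) * r ^ 2 + b * (t ^ 2) ^ 2 * r + c * (t ^ 2) ^ 3 = 0 ∧
        ((t = 0 ∧ P = 0) ∨ (t ≠ 0 ∧ ∃ (y : L) (h' : (WC (a : L) b c).toAffine.Nonsingular
          ((r : L) / (t : L) ^ 2) y), P = Affine.Point.some _ y h')) := by
    intro t
    by_cases ht1 : V O.valuation γ 1 (t : L)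
    swap
    · exact ⟨0, fun h3 => absurd h3 ht1⟩
    -- Hensel
    have htm : t ∈ IsLocalRing.maximalIdeal O := by
      rw [hmax, Ideal.mem_span_singleton]
      have := (V_dvd O ϖ hϖ 1 t).mp (by exact_mod_cast ht1)
      rwa [pow_one] at this
    obtain ⟨r, hr, hr1⟩ : ∃ r : O,
        r ^ 3 + (a * t ^ 2 - 1) * r ^ 2 + b * (t ^ 2) ^ 2 * r + c * (t ^ 2) ^ 3 = 0 ∧
        r - 1 ∈ IsLocalRing.maximalIdeal O := by
      have hh : HenselianRing O (IsLocalRing.maximalIdeal O) :=
        IsAdicComplete.henselianRing O (IsLocalRing.maximalIdeal O)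
      set G : O[X] := X ^ 3 + C (a * t ^ 2 - 1) * X ^ 2 + C (b * (t ^ 2) ^ 2) * X +
        C (c * (t ^ 2) ^ 3) with hG
      have hGm : G.Monic := by
        rw [hG]
        monicity!
      have hG1 : G.eval 1 ∈ IsLocalRing.maximalIdeal O := by
        have e1 : G.eval 1 = t * (a * t + b * t ^ 3 + c * t ^ 5) := by
          rw [hG]
          simp
          ring
        rw [e1]
        exact Ideal.mul_mem_right _ _ htm
      have hG2 : IsUnit (Ideal.Quotient.mk (IsLocalRing.maximalIdeal O)
          (G.derivative.eval 1)) := by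
        have e1 : G.derivative.eval 1 = 1 + t * (2 * a * t + b * t ^ 3) := by
          rw [hG, der1]
          ring
        have e2 : Ideal.Quotient.mk (IsLocalRing.maximalIdeal O) (G.derivative.eval 1) = 1 := by
          rw [e1, map_add, map_one, Ideal.Quotient.eq_zero_iff_mem.mpr
            (Ideal.mul_mem_right _ _ htm), add_zero]
        rw [e2]
        exact isUnit_one
      obtain ⟨r, hr, hr1⟩ := hh.is_henselian G hGm 1 hG1 hG2
      refine ⟨r, ?_, hr1⟩
      rw [IsRoot.def, hG] at hr
      simpa using hr
    have hrV : V O.valuation γ 1 ((r : L) - 1) := by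
      rw [hmax, Ideal.mem_span_singleton] at hr1
      have := (V_dvd O ϖ hϖ 1 (r - 1)).mpr (by rwa [pow_one])
      simpa using this
    by_cases ht : t = 0
    · exact ⟨0, fun _ => ⟨r, hrV, hr, Or.inl ⟨ht, rfl⟩⟩⟩
    · have htL : (t : L) ≠ 0 := fun h0 => ht (Subtype.ext h0)
      have hrL : (r : L) ^ 3 + ((a : L) * (t : L) ^ 2 - 1) * (r : L) ^ 2 +
          (b : L) * ((t : L) ^ 2) ^ 2 * (r : L) + (c : L) * ((t : L) ^ 2) ^ 3 = 0 := by
        have := congrArg (Subtype.val) hr
        simpa using this
      have hr0 : (r : L) ≠ 0 := by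
        have h3 : E O.valuation γ 0 ((1 : L) + ((r : L) - 1)) :=
          E_add h E_one hrV (by norm_num)
        have h4 := E_ne h h3
        intro h5
        apply h4
        rw [h5]
        ring
      have heq : ((r : L) / (t : L) ^ 3) ^ 2 = ((r : L) / (t : L) ^ 2) ^ 3 +
          (a : L) * ((r : L) / (t : L) ^ 2) ^ 2 + (b : L) * ((r : L) / (t : L) ^ 2) + (c : L) := by
        field_simp
        linear_combination -hrL
      have hns := ns_of hD.two (div_ne_zero hr0 (pow_ne_zero 3 htL)) heq
      exact ⟨Affine.Point.some _ _ hns, fun _ => ⟨r, hrV, hr, Or.inr ⟨ht, _, hns, rfl⟩⟩⟩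
  choose pt hpt' using hpt
  -- the parameters
  have hfin2 : Finite (O ⧸ Ideal.span {(2 : O)}) := by
    rw [hspan]
    exact hfinq e
  let τ : O ⧸ Ideal.span {(2 : O)} → O := fun q => Quotient.out q
  have hτ : ∀ q, Ideal.Quotient.mk (Ideal.span {(2 : O)}) (τ q) = q := fun q =>
    Ideal.Quotient.mk_out q
  let tt : O ⧸ Ideal.span {(2 : O)} → O := fun q => ϖ * τ q
  have htt : ∀ q, V O.valuation γ 1 ((tt q : O) : L) := by
    intro q
    have := (V_dvd O ϖ hϖ 1 (tt q)).mpr (by rw [pow_one]; exact Dvd.intro _ rfl)
    exact_mod_cast this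
  have hdiff : ∀ q q', q ≠ q' → ∃ j : ℤ, j ≤ e ∧
      E O.valuation γ j (((tt q : O) : L) - ((tt q' : O) : L)) := by
    intro q q' hqq
    have h3 : ((tt q : O) : L) - ((tt q' : O) : L) = (ϖ : L) * ((τ q : L) - (τ q' : L)) := by
      show ((ϖ * τ q : O) : L) - ((ϖ * τ q' : O) : L) = _
      push_cast
      ring
    have h4 : ¬ V O.valuation γ (e : ℤ) ((τ q : L) - (τ q' : L)) := by
      intro h5
      apply hqq
      rw [← hτ q, ← hτ q', Ideal.Quotient.eq, hspan, Ideal.span_singleton_pow,
        Ideal.mem_span_singleton, ← V_dvd O ϖ hϖ]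
      simpa using h5
    have h5 : ((τ q : L) - (τ q' : L)) ≠ 0 := by
      intro h6
      apply h4
      rw [h6]
      exact V_zero
    obtain ⟨n, hn⟩ := E_ex h h5
    have h6 : n < e := by
      by_contra hcon
      exact h4 (V_mono h (E_V hn) (by omega))
    refine ⟨1 + n, by omega, ?_⟩
    rw [h3]
    exact E_mul h hϖE hn
  -- the first coordinate
  have hxo : ∀ (t r : O), t ≠ 0 → V O.valuation γ 1 ((r : L) - 1) → ∀ o : ℤ,
      E O.valuation γ o (t : L) → E O.valuation γ (-(2 * o)) ((r : L) / (t : L) ^ 2) := by
    intro t r ht hr o ho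
    have h3 : E O.valuation γ 0 (r : L) := by
      have e1 : (r : L) = 1 + ((r : L) - 1) := by ring
      rw [e1]
      exact E_add h E_one hr (by norm_num)
    have h4 := E_div h h3 (E_pow h ho 2)
    have h5 : 0 - ((2 : ℕ) : ℤ) * o = -(2 * o) := by push_cast; ring
    rwa [h5] at h4
  obtain ⟨s, hs1, hs2⟩ := count H (fun q => pt (tt q))
    (by
      intro q
      obtain ⟨r, hr1, hr2, hr3⟩ := hpt' (tt q) (htt q)
      rcases hr3 with ⟨-, hP⟩ | ⟨ht, y, hns, hP⟩
      · show pt (tt q) + pt (tt q) ∈ H
        rw [hP, add_zero]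
        exact H.zero_mem
      · show pt (tt q) + pt (tt q) ∈ H
        rw [hP]
        have htL : ((tt q : O) : L) ≠ 0 := fun h0 => ht (Subtype.ext h0)
        obtain ⟨o, ho⟩ := E_ex h htL
        have ho1 : 1 ≤ o := (E_V_iff h ho).mp (htt q)
        obtain ⟨x3, y3, h3, h4, h5⟩ := dbl_ord h ha hb hc heE he0 hns
          (hxo (tt q) r ht hr1 o ho) (by omega)
        rw [h4, hmem x3 y3 h3 _ h5]
        show (2 : ℤ) + 2 * e ≤ -(-(2 * o) - 2 * e)
        omega)
    (by
      intro q q' hqq
      show pt (tt q) - pt (tt q') ∉ H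
      obtain ⟨j, hj, hjE⟩ := hdiff q q' hqq
      obtain ⟨r, hr1, hr2, hr3⟩ := hpt' (tt q) (htt q)
      obtain ⟨r', hr1', hr2', hr3'⟩ := hpt' (tt q') (htt q')
      rcases hr3 with ⟨ht, hP⟩ | ⟨ht, y, hns, hP⟩
      · rcases hr3' with ⟨ht', hP'⟩ | ⟨ht', y', hns', hP'⟩
        · exfalso
          rw [ht, ht'] at hjE
          have := E_ne h hjE
          simp at this
        · rw [hP, hP', zero_sub, H.neg_mem_iff]
          rw [ht] at hjE
          have h3 : E O.valuation γ j ((tt q' : O) : L) := by
            have := E_neg hjE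
            simpa using this
          rw [hmem _ _ _ _ (hxo (tt q') r' ht' hr1' j h3)]
          show ¬ ((2 : ℤ) + 2 * e ≤ -(-(2 * j)))
          omega
      · rcases hr3' with ⟨ht', hP'⟩ | ⟨ht', y', hns', hP'⟩
        · rw [hP, hP', sub_zero]
          rw [ht'] at hjE
          have h3 : E O.valuation γ j ((tt q : O) : L) := by
            simpa using hjE
          rw [hmem _ _ _ _ (hxo (tt q) r ht hr1 j h3)]
          show ¬ ((2 : ℤ) + 2 * e ≤ -(-(2 * j)))
          omega
        · rw [hP, hP']
          -- both nonzero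
          set t : O := tt q with htd
          set t' : O := tt q' with htd'
          have htL : (t : L) ≠ 0 := fun h0 => ht (Subtype.ext h0)
          have htL' : (t' : L) ≠ 0 := fun h0 => ht' (Subtype.ext h0)
          obtain ⟨o, ho⟩ := E_ex h htL
          obtain ⟨o', ho'⟩ := E_ex h htL'
          have ho1 : 1 ≤ o := (E_V_iff h ho).mp (htt q)
          have ho1' : 1 ≤ o' := (E_V_iff h ho').mp (htt q')
          have hx := hxo t r ht hr1 o ho
          have hx' := hxo t' r' ht' hr1' o' ho'
          have hrL : (r : L) ^ 3 + ((a : L) * (t : L) ^ 2 - 1) * (r : L) ^ 2 +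
              (b : L) * ((t : L) ^ 2) ^ 2 * (r : L) + (c : L) * ((t : L) ^ 2) ^ 3 = 0 := by
            have := congrArg (Subtype.val) hr2
            simpa using this
          have hrL' : (r' : L) ^ 3 + ((a : L) * (t' : L) ^ 2 - 1) * (r' : L) ^ 2 +
              (b : L) * ((t' : L) ^ 2) ^ 2 * (r' : L) + (c : L) * ((t' : L) ^ 2) ^ 3 = 0 := by
            have := congrArg (Subtype.val) hr2'
            simpa using this
          have hrO : V O.valuation γ 0 (r : L) := (hO _).mpr r.2
          have hrO' : V O.valuation γ 0 (r' : L) := (hO _).mpr r'.2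
          have htO : V O.valuation γ 0 (t : L) := (hO _).mpr t.2
          have htO' : V O.valuation γ 0 (t' : L) := (hO _).mpr t'.2
          have htV : V O.valuation γ 1 (t : L) := htt q
          have htV' : V O.valuation γ 1 (t' : L) := htt q'
          have h2V : V O.valuation γ 1 (2 : L) := V_mono h (E_V heE) (by omega)
          set T : L := (t : L) ^ 2 with hT
          set T' : L := (t' : L) ^ 2 with hT'
          have hTV : V O.valuation γ 1 T := by
            rw [hT, sq]
            exact V_mono h (V_mul h htV htO) (by omega)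
          have hTV' : V O.valuation γ 1 T' := by
            rw [hT', sq]
            exact V_mono h (V_mul h htV' htO') (by omega)
          have hTO : V O.valuation γ 0 T := V_mono h hTV (by omega)
          have hTO' : V O.valuation γ 0 T' := V_mono h hTV' (by omega)
          -- T - T'
          have hTT : E O.valuation γ (2 * j) (T - T') := by
            have e1 : T - T' = ((t : L) - t') * (((t : L) - t') + 2 * t') := by
              rw [hT, hT']
              ring
            rw [e1]
            have e2 : E O.valuation γ j (((t : L) - t') + 2 * t') := by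
              refine E_add h hjE (n := e + 1) ?_ (by omega)
              exact V_mul h (E_V heE) htV'
            have := E_mul h hjE e2
            have e3 : j + j = 2 * j := by ring
            rwa [e3] at this
          -- the difference of r and r'
          set A1 : L := (r : L) ^ 2 + r * r' + r' ^ 2 + (a * T - 1) * (r + r') + b * T ^ 2
            with hA1
          set B1 : L := a * (r' : L) ^ 2 + b * (T + T') * r' + c * (T ^ 2 + T * T' + T' ^ 2)
            with hB1
          have hAB : ((r : L) - r') * A1 + (T - T') * B1 = 0 := by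
            rw [hA1, hB1]
            linear_combination hrL - hrL'
          have hA1E : E O.valuation γ 0 A1 := by
            have e2 : V O.valuation γ 1 (A1 - 1) := by
              have e3 : A1 - 1 = ((r : L) - 1) * (r + r') + ((r' : L) - 1) * (r' + 1) +
                  a * T * (r + r') + b * T * T + 0 := by
                rw [hA1]
                ring
              rw [e3]
              refine V_add (V_add (V_add (V_add ?_ ?_) ?_) ?_) V_zero
              · exact V_mono h (V_mul h hr1 (V_add hrO hrO')) (by omega)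
              · exact V_mono h (V_mul h hr1' (V_add hrO' V_one)) (by omega)
              · exact V_mono h (V_mul h (V_mul h ha hTV) (V_add hrO hrO')) (by omega)
              · exact V_mono h (V_mul h (V_mul h hb hTV) hTO) (by omega)
            have e4 : A1 = 1 + (A1 - 1) := by ring
            rw [e4]
            exact E_add h E_one e2 (by norm_num)
          have hB1V : V O.valuation γ 0 B1 := by
            rw [hB1]
            refine V_add (V_add ?_ ?_) ?_
            · rw [sq]
              exact V_mono h (V_mul h ha (V_mul h hrO' hrO')) (by omega)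
            · exact V_mono h (V_mul h (V_mul h hb (V_add hTO hTO')) hrO') (by omega)
            · rw [sq, sq]
              exact V_mono h (V_mul h hc (V_add (V_add (V_mul h hTO hTO) (V_mul h hTO hTO'))
                (V_mul h hTO' hTO'))) (by omega)
          have hrE : E O.valuation γ 0 (r : L) := by
            have e1 : (r : L) = 1 + ((r : L) - 1) := by ring
            rw [e1]
            exact E_add h E_one hr1 (by norm_num)
          have hrE' : E O.valuation γ 0 (r' : L) := by
            have e1 : (r' : L) = 1 + ((r' : L) - 1) := by ring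
            rw [e1]
            exact E_add h E_one hr1' (by norm_num)
          have hr0 := E_ne h hrE
          have hr0' := E_ne h hrE'
          have hA0 := E_ne h hA1E
          have hT0 : T ≠ 0 := pow_ne_zero 2 htL
          have hT0' : T' ≠ 0 := pow_ne_zero 2 htL'
          -- x - x'
          have hxx : E O.valuation γ (2 * j + (-(2 * o) + -(2 * o')))
              ((r : L) / T - (r' : L) / T') := by
            have e1 : (r : L) / T - (r' : L) / T' =
                -((T - T') * (r' + T' * (B1 / A1))) / (T * T') := by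
              have e2 : (r : L) - r' = -((T - T') * (B1 / A1)) := by
                field_simp
                linear_combination hAB
              have e3 : (r : L) / T - (r' : L) / T' = (r * T' - r' * T) / (T * T') := by
                field_simp
              rw [e3]
              congr 1
              have e4 : (r : L) * T' - r' * T = ((r : L) - r') * T' - r' * (T - T') := by ring
              rw [e4, e2]
              ring
            rw [e1]
            have e5 : E O.valuation γ 0 ((r' : L) + T' * (B1 / A1)) := by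
              refine E_add h hrE' (n := 1) ?_ (by norm_num)
              have := V_mul h hTV' (V_div h hB1V hA1E)
              exact V_mono h this (by omega)
            have e6 : E O.valuation γ (2 * o + 2 * o') (T * T') := by
              have e7 := E_mul h (E_pow h ho 2) (E_pow h ho' 2)
              have e8 : ((2 : ℕ) : ℤ) * o + ((2 : ℕ) : ℤ) * o' = 2 * o + 2 * o' := by
                push_cast
                ring
              rwa [e8] at e7
            have e9 := E_div h (E_neg (E_mul h hTT e5)) e6
            have e10 : 2 * j + 0 - (2 * o + 2 * o') = 2 * j + (-(2 * o) + -(2 * o')) := by ring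
            rwa [e10] at e9
          have hne : (r : L) / T ≠ (r' : L) / T' := by
            intro h0
            exact E_ne h hxx (sub_eq_zero.mpr h0)
          obtain ⟨x3, y3, h3, h4, h5⟩ := add_pts (a : L) b c hns hns' hne
          obtain ⟨x4, y4, h6, h7, h8⟩ := sub_pts (a : L) b c hns hns' hne
          have heq1 := (eqn_iff (a : L) b c _ y).1 hns.1
          have heq2 := (eqn_iff (a : L) b c _ y').1 hns'.1
          obtain ⟨hp, hs⟩ := sum_prod (a : L) b c hne heq1 heq2 h5 h8
          obtain ⟨h9, h10⟩ := separation h ha hb hc (E_V heE) he0 hx hx' (by omega) (by omega)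
            hxx (by omega) hp hs
          rw [h7]
          have h11 : E O.valuation γ (-(2 * j)) x4 := by
            have e1 := E_inv h10
            rw [inv_inv] at e1
            have e2 : -(2 * j + (-(2 * o) + -(2 * o')) - (-(2 * o) + -(2 * o'))) = -(2 * j) := by
              ring
            rwa [e2] at e1
          rw [hmem x4 y4 h6 _ h11]
          show ¬ ((2 : ℤ) + 2 * e ≤ -(-(2 * j)))
          omega)
  exact ⟨s, hs1, hs2⟩

end Pool.NF
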