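import Pool.Agent.H66.NF.U

/-!
# PRN, row PTS: the calculus of orders and the group law
-/

set_option autoImplicit false

namespace Pool.NF.PTS66

section Val

variable {L : Type} [Field L] {Γ : Type} [LinearOrderedCommGroupWithZero Γ]

/-- `γ` generates the value group. -/
structure Uf (v : Valuation L Γ) (γ : Γ) : Prop where
  ne : γ ≠ 0
  lt : γ < 1
  ex : ∀ z : L, z ≠ 0 → ∃ n : ℤ, v z = γ ^ n

/-- The order of `x` is at least `n`. -/
def V (v : Valuation L Γ) (γ : Γ) (n : ℤ) (x : L) : Prop := v x ≤ γ ^ n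

/-- The order of `x` is `n`. -/
def E (v : Valuation L Γ) (γ : Γ) (n : ℤ) (x : L) : Prop := v x = γ ^ n

variable {v : Valuation L Γ} {γ : Γ} (h : Uf v γ)

include h

theorem le_iff {m n : ℤ} : γ ^ m ≤ γ ^ n ↔ n ≤ m :=
  zpow_le_zpow_iff_right_of_lt_one₀ (zero_lt_iff.mpr h.ne) h.lt

theorem lt_iff {m n : ℤ} : γ ^ m < γ ^ n ↔ n < m :=
  zpow_lt_zpow_iff_right_of_lt_one₀ (zero_lt_iff.mpr h.ne) h.lt

theorem V_mono {m n : ℤ} {x : L} (hx : V v γ m x) (hn : n ≤ m) : V v γ n x :=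
  le_trans hx ((le_iff h).mpr hn)

omit h in
theorem V_add {n : ℤ} {x y : L} (hx : V v γ n x) (hy : V v γ n y) : V v γ n (x + y) :=
  Valuation.map_add_le v hx hy

omit h in
theorem V_neg {n : ℤ} {x : L} (hx : V v γ n x) : V v γ n (-x) := by
  unfold V
  rw [Valuation.map_neg]
  exact hx

omit h in
theorem V_sub {n : ℤ} {x y : L} (hx : V v γ n x) (hy : V v γ n y) : V v γ n (x - y) := by
  rw [sub_eq_add_neg]
  exact V_add hx (V_neg hy)

theorem V_mul {m n : ℤ} {x y : L} (hx : V v γ m x) (hy : V v γ n y) : V v γ (m + n) (x * y) := by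
  unfold V
  rw [map_mul, zpow_add₀ h.ne]
  exact mul_le_mul' hx hy

omit h in
theorem V_zero {n : ℤ} : V v γ n 0 := by
  unfold V
  rw [map_zero]
  exact zero_le

theorem E_mul {m n : ℤ} {x y : L} (hx : E v γ m x) (hy : E v γ n y) : E v γ (m + n) (x * y) := by
  unfold E at *
  rw [map_mul, zpow_add₀ h.ne, hx, hy]

omit h in
theorem E_inv {m : ℤ} {x : L} (hx : E v γ m x) : E v γ (-m) x⁻¹ := by
  unfold E at *
  rw [map_inv₀, hx, zpow_neg]

theorem E_div {m n : ℤ} {x y : L} (hx : E v γ m x) (hy : E v γ n y) : E v γ (m - n) (x / y) := by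
  rw [div_eq_mul_inv, sub_eq_add_neg]
  exact E_mul h hx (E_inv hy)

theorem V_div {m n : ℤ} {x y : L} (hx : V v γ m x) (hy : E v γ n y) : V v γ (m - n) (x / y) := by
  rw [div_eq_mul_inv, sub_eq_add_neg]
  exact V_mul h hx (le_of_eq (E_inv hy))

omit h in
theorem E_V {m : ℤ} {x : L} (hx : E v γ m x) : V v γ m x := le_of_eq hx

theorem E_V_iff {m n : ℤ} {x : L} (hx : E v γ m x) : V v γ n x ↔ n ≤ m := by
  unfold V E at *
  rw [hx]
  exact le_iff h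

theorem E_uniq {m n : ℤ} {x : L} (hx : E v γ m x) (hy : E v γ n x) : m = n := by
  have h1 := (E_V_iff h hx).mp (E_V hy)
  have h2 := (E_V_iff h hy).mp (E_V hx)
  omega

theorem E_ne {m : ℤ} {x : L} (hx : E v γ m x) : x ≠ 0 := by
  rintro rfl
  unfold E at hx
  rw [map_zero] at hx
  exact zpow_ne_zero m h.ne hx.symm

theorem E_ex {x : L} (hx : x ≠ 0) : ∃ n : ℤ, E v γ n x := h.ex x hx

omit h in
theorem E_neg {m : ℤ} {x : L} (hx : E v γ m x) : E v γ m (-x) := by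
  unfold E at *
  rw [Valuation.map_neg, hx]

theorem E_add {m n : ℤ} {x y : L} (hx : E v γ m x) (hy : V v γ n y) (hmn : m < n) :
    E v γ m (x + y) := by
  have h1 : v y < v x := by
    unfold E at hx
    rw [hx]
    exact lt_of_le_of_lt hy ((lt_iff h).mpr hmn)
  unfold E
  rw [Valuation.map_add_eq_of_lt_left v h1]
  exact hx

omit h in
theorem V_one : V v γ 0 1 := by
  unfold V
  rw [map_one, zpow_zero]

omit h in
theorem E_one : E v γ 0 1 := by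
  unfold E
  rw [map_one, zpow_zero]

theorem E_pow {m : ℤ} {x : L} (hx : E v γ m x) (k : ℕ) : E v γ (k * m) (x ^ k) := by
  induction k with
  | zero => simpa using E_one
  | succ k ih =>
    rw [pow_succ]
    have h1 := E_mul h ih hx
    have h2 : (k : ℤ) * m + m = ((k + 1 : ℕ) : ℤ) * m := by push_cast; ring
    rw [h2] at h1
    exact h1

/-- Newton polygon of a quadratic polynomial. -/
theorem newton {t : ℤ} {x y : L} (hp : V v γ (2 * t) (x * y)) (hs : V v γ t (x + y)) :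
    V v γ t x := by
  by_cases hx : x = 0
  · rw [hx]
    exact V_zero
  obtain ⟨n, hn⟩ := E_ex h hx
  by_contra hcon
  have h1 : n < t := by
    by_contra h2
    exact hcon (V_mono h (E_V hn) (by omega))
  have h2 : E v γ n (-x) := E_neg hn
  have h3 : E v γ n (-x + (x + y)) := E_add h h2 hs h1
  have h4 : -x + (x + y) = y := by ring
  rw [h4] at h3
  have h5 := (E_V_iff h (E_mul h hn h3)).mp hp
  omega

/-- Both roots, if the product is known. -/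
theorem newton_exact {t : ℤ} {x y : L} (hp : E v γ (2 * t) (x * y)) (hs : V v γ t (x + y)) :
    E v γ t x := by
  have h1 := newton h (E_V hp) hs
  have h2 := newton h (t := t) (x := y) (y := x) (by rw [mul_comm y x]; exact E_V hp)
    (by rw [add_comm]; exact hs)
  have h0 := E_ne h hp
  obtain ⟨m, hm⟩ := E_ex h (left_ne_zero_of_mul h0)
  obtain ⟨n, hn⟩ := E_ex h (right_ne_zero_of_mul h0)
  have h3 := (E_V_iff h hm).mp h1
  have h4 := (E_V_iff h hn).mp h2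
  have h5 := E_uniq h hp (E_mul h hm hn)
  have h6 : m = t := by omega
  rwa [h6] at hm

/-! ### The denominators of the sum and difference -/

theorem D_ord {a b c x1 x2 : L} {o1 o2 : ℤ} (ha : V v γ 0 a) (hb : V v γ 0 b) (hc : V v γ 0 c)
    (h2 : V v γ 0 (2 : L)) (h1 : E v γ o1 x1) (h3 : E v γ o2 x2) (ho1 : o1 < 0) (ho2 : o2 < 0) :
    E v γ (2 * (o1 + o2)) ((x1 * x2 - b) ^ 2 - 4 * c * (x1 + x2 + a)) := by
  have e1 : (x1 * x2 - b) ^ 2 - 4 * c * (x1 + x2 + a) =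
      (x1 * x2) ^ 2 + (b * b - 2 * b * (x1 * x2) - 2 * 2 * c * (x1 + x2 + a)) := by ring
  rw [e1]
  have h4 : E v γ (2 * (o1 + o2)) ((x1 * x2) ^ 2) := by
    have := E_pow h (E_mul h h1 h3) 2
    exact_mod_cast this
  refine E_add h h4 (n := o1 + o2) ?_ (by omega)
  refine V_sub (V_sub ?_ ?_) ?_
  · have := V_mul h hb hb
    exact V_mono h this (by omega)
  · have := V_mul h (V_mul h h2 hb) (E_V (E_mul h h1 h3))
    exact V_mono h this (by omega)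
  · have h5 : V v γ (o1 + o2) (x1 + x2 + a) :=
      V_add (V_add (V_mono h (E_V h1) (by omega)) (V_mono h (E_V h3) (by omega)))
        (V_mono h ha (by omega))
    have := V_mul h (V_mul h (V_mul h h2 h2) hc) h5
    exact V_mono h this (by omega)

theorem S_ord {a b c x1 x2 : L} {o1 o2 w e : ℤ} (ha : V v γ 0 a) (hb : V v γ 0 b)
    (hc : V v γ 0 c) (he : V v γ e (2 : L)) (h1 : E v γ o1 x1) (h3 : E v γ o2 x2)
    (ho1 : o1 < 0) (ho2 : o2 < 0) (hw : V v γ w (x1 + x2)) (hwe : w ≤ e) :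
    V v γ (e + w + (o1 + o2))
      (2 * ((x1 + x2) * (x1 * x2 + b) + 2 * a * (x1 * x2) + 2 * c)) := by
  have h5 : V v γ (w + (o1 + o2))
      ((x1 + x2) * (x1 * x2 + b) + 2 * a * (x1 * x2) + 2 * c) := by
    refine V_add (V_add ?_ ?_) ?_
    · exact V_mul h hw (V_add (E_V (E_mul h h1 h3)) (V_mono h hb (by omega)))
    · have := V_mul h (V_mul h he ha) (E_V (E_mul h h1 h3))
      exact V_mono h this (by omega)
    · have := V_mul h he hc
      exact V_mono h this (by omega)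
  have := V_mul h he h5
  exact V_mono h this (by omega)

/-- The reciprocals of `x3`, `x4`. -/
theorem recip {a b c x1 x2 x3 x4 : L} {o1 o2 w e d : ℤ} (ha : V v γ 0 a) (hb : V v γ 0 b)
    (hc : V v γ 0 c) (he : V v γ e (2 : L)) (he0 : 0 ≤ e) (h1 : E v γ o1 x1) (h3 : E v γ o2 x2)
    (ho1 : o1 < 0) (ho2 : o2 < 0) (hw : V v γ w (x1 + x2)) (hwe : w ≤ e)
    (hd : E v γ d (x1 - x2))
    (hp : x3 * x4 * (x1 - x2) ^ 2 = (x1 * x2 - b) ^ 2 - 4 * c * (x1 + x2 + a))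
    (hs : (x3 + x4) * (x1 - x2) ^ 2 =
      2 * ((x1 + x2) * (x1 * x2 + b) + 2 * a * (x1 * x2) + 2 * c)) :
    x3 ≠ 0 ∧ x4 ≠ 0 ∧ E v γ (2 * (d - (o1 + o2))) (x3⁻¹ * x4⁻¹) ∧
      V v γ (e + w - (o1 + o2)) (x3⁻¹ + x4⁻¹) := by
  have hD := D_ord h ha hb hc (V_mono h he he0) h1 h3 ho1 ho2
  have hS := S_ord h ha hb hc he h1 h3 ho1 ho2 hw hwe
  rw [← hp] at hD
  rw [← hs] at hS
  have h0 := E_ne h hD
  have h3' : x3 ≠ 0 := left_ne_zero_of_mul (left_ne_zero_of_mul h0)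
  have h4' : x4 ≠ 0 := right_ne_zero_of_mul (left_ne_zero_of_mul h0)
  have hd2 : E v γ (2 * d) ((x1 - x2) ^ 2) := by
    have := E_pow h hd 2
    exact_mod_cast this
  have hd0 : (x1 - x2) ^ 2 ≠ 0 := E_ne h hd2
  obtain ⟨z, hz⟩ : ∃ z, z = (x1 - x2) ^ 2 := ⟨_, rfl⟩
  refine ⟨h3', h4', ?_, ?_⟩
  · have h5 : x3⁻¹ * x4⁻¹ = (x1 - x2) ^ 2 / (x3 * x4 * (x1 - x2) ^ 2) := by
      rw [← hz] at hd0 ⊢
      field_simp
    rw [h5]
    have := E_div h hd2 hD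
    have h6 : 2 * d - 2 * (o1 + o2) = 2 * (d - (o1 + o2)) := by ring
    rwa [h6] at this
  · have h5 : x3⁻¹ + x4⁻¹ = (x3 + x4) * (x1 - x2) ^ 2 / (x3 * x4 * (x1 - x2) ^ 2) := by
      rw [← hz] at hd0 ⊢
      field_simp
      ring
    rw [h5]
    have := V_div h hS hD
    have h6 : e + w + (o1 + o2) - 2 * (o1 + o2) = e + w - (o1 + o2) := by ring
    rwa [h6] at this

/-- Closure. -/
theorem closure {a b c x1 x2 x3 x4 : L} {o1 o2 e m : ℤ} (ha : V v γ 0 a) (hb : V v γ 0 b)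
    (hc : V v γ 0 c) (he : V v γ e (2 : L)) (he0 : 0 ≤ e) (hm : 0 < m) (h1 : E v γ o1 x1)
    (h3 : E v γ o2 x2) (ho1 : o1 ≤ -m) (ho2 : o2 ≤ -m) (hne : x1 ≠ x2)
    (hp : x3 * x4 * (x1 - x2) ^ 2 = (x1 * x2 - b) ^ 2 - 4 * c * (x1 + x2 + a))
    (hs : (x3 + x4) * (x1 - x2) ^ 2 =
      2 * ((x1 + x2) * (x1 * x2 + b) + 2 * a * (x1 * x2) + 2 * c)) :
    x3 ≠ 0 ∧ V v γ m x3⁻¹ := by
  obtain ⟨d, hd⟩ := E_ex h (sub_ne_zero.mpr hne)
  have hw1 : V v γ (min o1 o2) (x1 + x2) :=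
    V_add (V_mono h (E_V h1) (min_le_left _ _)) (V_mono h (E_V h3) (min_le_right _ _))
  have hw2 : V v γ (min o1 o2) (x1 - x2) :=
    V_sub (V_mono h (E_V h1) (min_le_left _ _)) (V_mono h (E_V h3) (min_le_right _ _))
  have hwd := (E_V_iff h hd).mp hw2
  obtain ⟨h5, -, h6, h7⟩ := recip h ha hb hc he he0 h1 h3 (by omega) (by omega) hw1
    (by omega) hd hp hs
  exact ⟨h5, newton h (V_mono h (E_V h6) (by omega)) (V_mono h h7 (by omega))⟩

/-- Separation. -/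
theorem separation {a b c x1 x2 x3 x4 : L} {o1 o2 e d : ℤ} (ha : V v γ 0 a) (hb : V v γ 0 b)
    (hc : V v γ 0 c) (he : V v γ e (2 : L)) (he0 : 0 ≤ e) (h1 : E v γ o1 x1)
    (h3 : E v γ o2 x2) (ho1 : o1 ≤ -2) (ho2 : o2 ≤ -2) (hd : E v γ d (x1 - x2))
    (hu : d - (o1 + o2) ≤ 2 * e + 2)
    (hp : x3 * x4 * (x1 - x2) ^ 2 = (x1 * x2 - b) ^ 2 - 4 * c * (x1 + x2 + a))
    (hs : (x3 + x4) * (x1 - x2) ^ 2 =
      2 * ((x1 + x2) * (x1 * x2 + b) + 2 * a * (x1 * x2) + 2 * c)) :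
    x4 ≠ 0 ∧ E v γ (d - (o1 + o2)) x4⁻¹ := by
  have hw1 : V v γ (min d (e + o2)) (x1 + x2) := by
    have e1 : x1 + x2 = (x1 - x2) + 2 * x2 := by ring
    rw [e1]
    exact V_add (V_mono h (E_V hd) (min_le_left _ _))
      (V_mono h (V_mul h he (E_V h3)) (min_le_right _ _))
  obtain ⟨-, h5, h6, h7⟩ := recip h ha hb hc he he0 h1 h3 (by omega) (by omega) hw1
    (by omega) hd hp hs
  refine ⟨h5, newton_exact h (t := d - (o1 + o2)) (y := x3⁻¹)
    (by rw [mul_comm x4⁻¹ x3⁻¹]; exact h6) ?_⟩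
  rw [add_comm x4⁻¹ x3⁻¹]
  exact V_mono h h7 (by omega)

/-- One of the two is small. -/
theorem either {a b c x1 x2 x3 x4 : L} {o1 o2 e m : ℤ} (ha : V v γ 0 a) (hb : V v γ 0 b)
    (hc : V v γ 0 c) (he : V v γ e (2 : L)) (he0 : 0 ≤ e) (h1 : E v γ o1 x1)
    (h3 : E v γ o2 x2) (ho1 : o1 < 0) (ho2 : o2 < 0) (hne : x1 ≠ x2)
    (hm : V v γ m (x1⁻¹ - x2⁻¹))
    (hp : x3 * x4 * (x1 - x2) ^ 2 = (x1 * x2 - b) ^ 2 - 4 * c * (x1 + x2 + a))
    (hs : (x3 + x4) * (x1 - x2) ^ 2 =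
      2 * ((x1 + x2) * (x1 * x2 + b) + 2 * a * (x1 * x2) + 2 * c)) :
    (x3 ≠ 0 ∧ V v γ m x3⁻¹) ∨ (x4 ≠ 0 ∧ V v γ m x4⁻¹) := by
  obtain ⟨d, hd⟩ := E_ex h (sub_ne_zero.mpr hne)
  have hw1 : V v γ (min o1 o2) (x1 + x2) :=
    V_add (V_mono h (E_V h1) (min_le_left _ _)) (V_mono h (E_V h3) (min_le_right _ _))
  obtain ⟨h5, h8, h6, -⟩ := recip h ha hb hc he he0 h1 h3 (by omega) (by omega) hw1
    (by omega) hd hp hs
  have hx1 := E_ne h h1
  have hx2 := E_ne h h3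
  have h9 : x1⁻¹ - x2⁻¹ = -((x1 - x2) / (x1 * x2)) := by
    field_simp
    ring
  have h10 : E v γ (d - (o1 + o2)) (x1⁻¹ - x2⁻¹) := by
    rw [h9]
    exact E_neg (E_div h hd (E_mul h h1 h3))
  have h11 := (E_V_iff h h10).mp hm
  obtain ⟨n3, h12⟩ := E_ex h (inv_ne_zero h5)
  obtain ⟨n4, h13⟩ := E_ex h (inv_ne_zero h8)
  have h14 := E_uniq h h6 (E_mul h h12 h13)
  by_cases h15 : m ≤ n3
  · exact Or.inl ⟨h5, V_mono h (E_V h12) h15⟩
  · exact Or.inr ⟨h8, V_mono h (E_V h13) (by omega)⟩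

end Val

/-! ### The group law -/

section Grp

open WeierstrassCurve

variable {L : Type} [Field L] [DecidableEq L] (a b c : L)

theorem add_pts {x1 y1 x2 y2 : L} (h1 : (WC a b c).toAffine.Nonsingular x1 y1)
    (h2 : (WC a b c).toAffine.Nonsingular x2 y2) (hx : x1 ≠ x2) :
    ∃ (x3 y3 : L) (h3 : (WC a b c).toAffine.Nonsingular x3 y3),
      (Affine.Point.some x1 y1 h1 + Affine.Point.some x2 y2 h2 = Affine.Point.some x3 y3 h3) ∧
      x3 = ((y1 - y2) / (x1 - x2)) ^ 2 - a - x1 - x2 := by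
  refine ⟨_, _, _, Affine.Point.add_of_X_ne hx, ?_⟩
  rw [Affine.slope_of_X_ne hx]
  simp only [Affine.addX, WC]
  ring

theorem sub_pts {x1 y1 x2 y2 : L} (h1 : (WC a b c).toAffine.Nonsingular x1 y1)
    (h2 : (WC a b c).toAffine.Nonsingular x2 y2) (hx : x1 ≠ x2) :
    ∃ (x3 y3 : L) (h3 : (WC a b c).toAffine.Nonsingular x3 y3),
      (Affine.Point.some x1 y1 h1 - Affine.Point.some x2 y2 h2 = Affine.Point.some x3 y3 h3) ∧
      x3 = ((y1 + y2) / (x1 - x2)) ^ 2 - a - x1 - x2 := by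
  rw [sub_eq_add_neg, Affine.Point.neg_some]
  obtain ⟨x3, y3, h3, h4, h5⟩ := add_pts a b c h1 ((Affine.nonsingular_neg ..).mpr h2) hx
  refine ⟨x3, y3, h3, h4, ?_⟩
  rw [h5]
  simp only [Affine.negY, WC]
  ring

theorem dbl_pt {x y : L} (h2 : (2 : L) ≠ 0) (h1 : (WC a b c).toAffine.Nonsingular x y)
    (hy : y ≠ 0) :
    ∃ (x3 y3 : L) (h3 : (WC a b c).toAffine.Nonsingular x3 y3),
      (Affine.Point.some x y h1 + Affine.Point.some x y h1 = Affine.Point.some x3 y3 h3) ∧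
      4 * y ^ 2 * x3 = x ^ 4 - 2 * b * x ^ 2 - 8 * c * x + b ^ 2 - 4 * a * c := by
  have hyn : y ≠ (WC a b c).toAffine.negY x y := by
    simp only [Affine.negY, WC]
    intro h
    apply hy
    have : (2 : L) * y = 0 := by linear_combination h
    exact (mul_eq_zero.mp this).resolve_left h2
  refine ⟨_, _, _, Affine.Point.add_self_of_Y_ne hyn, ?_⟩
  have he := (eqn_iff a b c x y).1 h1.1
  rw [Affine.slope_of_Y_ne rfl hyn]
  simp only [Affine.addX, Affine.negY, WC]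
  have h3 : y - (-y - 0 * x - 0) = 2 * y := by ring
  rw [h3]
  have h4 : (2 * y : L) ≠ 0 := mul_ne_zero h2 hy
  field_simp
  linear_combination (-16 * (a + 2 * x)) * he

omit [DecidableEq L] in
/-- The formulas for the sum and the product. -/
theorem sum_prod {x1 y1 x2 y2 x3 x4 : L} (hx : x1 ≠ x2)
    (h1 : y1 ^ 2 = x1 ^ 3 + a * x1 ^ 2 + b * x1 + c)
    (h2 : y2 ^ 2 = x2 ^ 3 + a * x2 ^ 2 + b * x2 + c)
    (h3 : x3 = ((y1 - y2) / (x1 - x2)) ^ 2 - a - x1 - x2)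
    (h4 : x4 = ((y1 + y2) / (x1 - x2)) ^ 2 - a - x1 - x2) :
    x3 * x4 * (x1 - x2) ^ 2 = (x1 * x2 - b) ^ 2 - 4 * c * (x1 + x2 + a) ∧
    (x3 + x4) * (x1 - x2) ^ 2 =
      2 * ((x1 + x2) * (x1 * x2 + b) + 2 * a * (x1 * x2) + 2 * c) := by
  have hd : x1 - x2 ≠ 0 := sub_ne_zero.mpr hx
  have e3 : x3 * (x1 - x2) ^ 2 = (y1 - y2) ^ 2 - (a + x1 + x2) * (x1 - x2) ^ 2 := by
    rw [h3]
    field_simp
    ring
  have e4 : x4 * (x1 - x2) ^ 2 = (y1 + y2) ^ 2 - (a + x1 + x2) * (x1 - x2) ^ 2 := by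
    rw [h4]
    field_simp
    ring
  constructor
  · apply mul_right_cancel₀ (pow_ne_zero 2 hd)
    have e5 : x3 * x4 * (x1 - x2) ^ 2 * (x1 - x2) ^ 2 =
        (x3 * (x1 - x2) ^ 2) * (x4 * (x1 - x2) ^ 2) := by ring
    rw [e5, e3, e4]
    have e6 : ((y1 - y2) ^ 2 - (a + x1 + x2) * (x1 - x2) ^ 2) *
        ((y1 + y2) ^ 2 - (a + x1 + x2) * (x1 - x2) ^ 2) =
        (y1 ^ 2 - y2 ^ 2) ^ 2 - 2 * (y1 ^ 2 + y2 ^ 2) * ((a + x1 + x2) * (x1 - x2) ^ 2) +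
          ((a + x1 + x2) * (x1 - x2) ^ 2) ^ 2 := by ring
    rw [e6, h1, h2]
    ring
  · have e5 : (x3 + x4) * (x1 - x2) ^ 2 = x3 * (x1 - x2) ^ 2 + x4 * (x1 - x2) ^ 2 := by ring
    rw [e5, e3, e4]
    have e6 : (y1 - y2) ^ 2 - (a + x1 + x2) * (x1 - x2) ^ 2 +
        ((y1 + y2) ^ 2 - (a + x1 + x2) * (x1 - x2) ^ 2) =
        2 * (y1 ^ 2 + y2 ^ 2) - 2 * ((a + x1 + x2) * (x1 - x2) ^ 2) := by ring
    rw [e6, h1, h2]
    ring

end Grp

end Pool.NF.PTS66
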