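import Pool.Agent.H66.NF.PTSa

/-!
# PRN, row PTS: the local field and the points
-/

set_option autoImplicit false

namespace Pool.NF.PTS66

open Polynomial WeierstrassCurve

section Loc

variable {L : Type} [Field L] (O : ValuationSubring L)

theorem uf_of (hdvr : IsDiscreteValuationRing O) (ϖ : O) (hϖ : Irreducible ϖ) :
    Uf O.valuation (O.valuation (ϖ : L)) := by
  have hϖ0 : (ϖ : L) ≠ 0 := by
    intro h
    exact hϖ.ne_zero (Subtype.ext h)
  have hne : O.valuation (ϖ : L) ≠ 0 := (Valuation.ne_zero_iff _).mpr hϖ0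
  have key : ∀ z : L, z ≠ 0 → z ∈ O → ∃ n : ℤ, O.valuation z = O.valuation (ϖ : L) ^ n := by
    intro z hz hzO
    have hz' : (⟨z, hzO⟩ : O) ≠ 0 := fun h => hz (congrArg Subtype.val h)
    obtain ⟨n, u, hu⟩ := IsDiscreteValuationRing.eq_unit_mul_pow_irreducible hz' hϖ
    refine ⟨n, ?_⟩
    have h1 : z = (u : O) * (ϖ : L) ^ n := by
      have := congrArg (Subtype.val) hu
      simpa using this
    rw [h1, map_mul, map_pow, (ValuationSubring.valuation_eq_one_iff O (u : O)).mp u.isUnit,
      one_mul, zpow_natCast]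
  refine ⟨hne, ?_, ?_⟩
  · rw [← ValuationSubring.valuation_lt_one_iff]
    exact hϖ.not_isUnit
  · intro z hz
    rcases O.mem_or_inv_mem z with h | h
    · exact key z hz h
    · obtain ⟨n, hn⟩ := key z⁻¹ (inv_ne_zero hz) h
      refine ⟨-n, ?_⟩
      rw [zpow_neg, ← hn, map_inv₀, inv_inv]

theorem V0_iff (γ : O.ValueGroup) (z : L) : V O.valuation γ 0 z ↔ z ∈ O := by
  unfold V
  rw [zpow_zero, ValuationSubring.valuation_le_one_iff]

/-- `V n` for elements of `O`. -/
theorem V_dvd (ϖ : O) (hϖ : Irreducible ϖ) (n : ℕ) (x : O) :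
    V O.valuation (O.valuation (ϖ : L)) n (x : L) ↔ ϖ ^ n ∣ x := by
  have hϖ0 : (ϖ : L) ≠ 0 := by
    intro h
    exact hϖ.ne_zero (Subtype.ext h)
  have hne : O.valuation (ϖ : L) ≠ 0 := (Valuation.ne_zero_iff _).mpr hϖ0
  unfold V
  constructor
  · intro h
    have h1 : O.valuation ((x : L) / (ϖ : L) ^ n) ≤ 1 := by
      rw [map_div₀, map_pow]
      rw [zpow_natCast] at h
      exact div_le_one_of_le₀ h zero_le
    rw [ValuationSubring.valuation_le_one_iff] at h1
    refine ⟨⟨_, h1⟩, Subtype.ext ?_⟩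
    push_cast
    field_simp
  · rintro ⟨y, rfl⟩
    push_cast
    rw [map_mul, map_pow, zpow_natCast]
    calc O.valuation (ϖ : L) ^ n * O.valuation (y : L) ≤ O.valuation (ϖ : L) ^ n * 1 :=
          mul_le_mul_right (ValuationSubring.valuation_le_one O y) _
      _ = _ := mul_one _

end Loc

/-- Finiteness of a quotient group. -/
theorem fin_quot {G : Type} [AddCommGroup G] (H : AddSubgroup G) {S : Type} [Finite S]
    (φ : G → S) (hφ : ∀ P Q, φ P = φ Q → P - Q ∈ H ∨ P + Q ∈ H) : Finite (G ⧸ H) := by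
  classical
  let g : S → G := fun s => if h : ∃ P, φ P = s then h.choose else 0
  have hg : ∀ P, φ (g (φ P)) = φ P := by
    intro P
    have h : ∃ Q, φ Q = φ P := ⟨P, rfl⟩
    show φ (if h : ∃ Q, φ Q = φ P then h.choose else 0) = φ P
    rw [dif_pos h]
    exact h.choose_spec
  apply Finite.of_surjective (fun p : S × Bool =>
    if p.2 then (QuotientAddGroup.mk (g p.1) : G ⧸ H) else -(QuotientAddGroup.mk (g p.1)))
  intro x
  obtain ⟨P, rfl⟩ := QuotientAddGroup.mk_surjective x
  rcases hφ P (g (φ P)) (hg P).symm with h | h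
  · refine ⟨(φ P, true), ?_⟩
    simp only [if_true]
    rw [eq_comm, QuotientAddGroup.eq_iff_sub_mem]
    exact h
  · refine ⟨(φ P, false), ?_⟩
    simp only [Bool.false_eq_true, if_false]
    rw [eq_comm, ← QuotientAddGroup.mk_neg, QuotientAddGroup.eq_iff_sub_mem, sub_neg_eq_add]
    exact h

/-- Counting in a finite quotient. -/
theorem count {G : Type} [AddCommGroup G] (H : AddSubgroup G) [Finite (G ⧸ H)] {S : Type}
    [Finite S] (p : S → G) (h2 : ∀ s, p s + p s ∈ H)
    (hinj : ∀ s s', s ≠ s' → p s - p s' ∉ H) :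
    ∃ t : Finset G, Nat.card S ≤ t.card ∧ ∀ P ∈ t, ∀ Q ∈ t, P ≠ Q → ∀ R, P - Q ≠ R + R := by
  classical
  let dbl : (G ⧸ H) →+ (G ⧸ H) := AddMonoidHom.id _ + AddMonoidHom.id _
  have hdbl : ∀ x, dbl x = x + x := fun x => rfl
  -- the kernel
  have hker : Nat.card S ≤ Nat.card dbl.ker := by
    apply Nat.card_le_card_of_injective
      (fun s : S => (⟨QuotientAddGroup.mk (p s), by
        rw [AddMonoidHom.mem_ker, hdbl, ← QuotientAddGroup.mk_add, QuotientAddGroup.eq_zero_iff]
        exact h2 s⟩ : dbl.ker))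
    intro s s' hss
    by_contra hne
    apply hinj s s' hne
    have h3 := congrArg Subtype.val hss
    simp only at h3
    rw [QuotientAddGroup.eq_iff_sub_mem] at h3
    exact h3
  have hcard : Nat.card ((G ⧸ H) ⧸ dbl.range) = Nat.card dbl.ker := by
    have e1 : Nat.card (G ⧸ H) = Nat.card ((G ⧸ H) ⧸ dbl.range) * Nat.card dbl.range :=
      AddSubgroup.card_eq_card_quotient_mul_card_addSubgroup _
    have e2 : Nat.card (G ⧸ H) = Nat.card ((G ⧸ H) ⧸ dbl.ker) * Nat.card dbl.ker :=
      AddSubgroup.card_eq_card_quotient_mul_card_addSubgroup _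
    have e3 : Nat.card ((G ⧸ H) ⧸ dbl.ker) = Nat.card dbl.range :=
      Nat.card_congr (QuotientAddGroup.quotientKerEquivRange dbl).toEquiv
    rw [e3] at e2
    have e4 : 0 < Nat.card dbl.range := Nat.card_pos
    have e5 : Nat.card ((G ⧸ H) ⧸ dbl.range) * Nat.card dbl.range =
        Nat.card dbl.ker * Nat.card dbl.range := by
      rw [← e1, e2, Nat.mul_comm]
    exact Nat.eq_of_mul_eq_mul_right e4 e5
  let B := (G ⧸ H) ⧸ dbl.range
  let r : B → G := fun b => Quotient.out (Quotient.out b : G ⧸ H)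
  have hr : ∀ b : B, (QuotientAddGroup.mk (QuotientAddGroup.mk (r b) : G ⧸ H) : B) = b := by
    intro b
    show (QuotientAddGroup.mk (QuotientAddGroup.mk (Quotient.out (Quotient.out b : G ⧸ H)) :
      G ⧸ H) : B) = b
    rw [QuotientAddGroup.out_eq', QuotientAddGroup.out_eq']
  have hrinj : Function.Injective r := by
    intro b b' hb
    rw [← hr b, ← hr b', hb]
  have hfin : Finite B := inferInstance
  have : Fintype B := Fintype.ofFinite B
  refine ⟨Finset.univ.image r, ?_, ?_⟩
  · rw [Finset.card_image_of_injective _ hrinj, Finset.card_univ, ← Nat.card_eq_fintype_card,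
      hcard]
    exact hker
  · intro P hP Q hQ hne R hR
    obtain ⟨b, -, rfl⟩ := Finset.mem_image.mp hP
    obtain ⟨b', -, rfl⟩ := Finset.mem_image.mp hQ
    apply hne
    have h3 : b = b' := by
      rw [← hr b, ← hr b', QuotientAddGroup.eq_iff_sub_mem, ← QuotientAddGroup.mk_sub, hR]
      exact ⟨QuotientAddGroup.mk R, rfl⟩
    rw [h3]

end Pool.NF.PTS66
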