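import Pool.Agent.H46.NF.L
import Pool.Agent.H5.NF.GRPN
import Pool.Agent.H2.NF.S3
import Pool.Agent.H79.PRK.Defs

/-!
# PRN, part (1b): the classes of divisors at the dyadic places

`L` is a completion of `K` at a place above `2`, with the valuation ring `O` and `q` elements in the
residue field, `2 = unit * ϖ^e`.  `f` is a monic cubic polynomial over `O`, irreducible over the
residue field, `E : y² = f(x)`.  The classes of square norm of `L[x]/(f)` modulo squares are at most
`q^(2e)` (VCN), the classes of divisors are at least `q^e` (WCN).  Hence the classes with `Loc2` have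
index at most `∏ q^e = 2^[K : ℚ]` (IDXN).
-/

set_option autoImplicit false

namespace Pool.NF

open Polynomial Matrix NumberField IsDedekindDomain Pool.HYP Pool.TOW Pool.AVS Pool.T1 Pool.PRK

section Defs

/-- A dyadic local field. -/
structure DyL (L : Type) [Field L] (O : ValuationSubring L) : Prop where
  dvr : IsDiscreteValuationRing O
  complete : IsAdicComplete (IsLocalRing.maximalIdeal O) O
  fin : Finite (IsLocalRing.ResidueField O)
  two : (2 : L) ≠ 0
  dy : (2 : L)⁻¹ ∉ O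

variable {L : Type} [Field L]

/-- The classes whose norm is a square. -/
def VL (f : L[X]) : Set ((AdjoinRoot f)ˣ ⧸ SqG f) :=
  {ξ | ∃ u : (AdjoinRoot f)ˣ, (QuotientGroup.mk u : (AdjoinRoot f)ˣ ⧸ SqG f) = ξ ∧
    IsSquare (Algebra.norm L (u : AdjoinRoot f))}

/-- The classes of divisors. -/
def WL (f : L[X]) : Set ((AdjoinRoot f)ˣ ⧸ SqG f) :=
  {ξ | ∃ (u : (AdjoinRoot f)ˣ) (p : L[X]), (QuotientGroup.mk u : (AdjoinRoot f)ˣ ⧸ SqG f) = ξ ∧
    AdjoinRoot.mk f p = (u : AdjoinRoot f) ∧ LocSol f p}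

/-- The polynomial of a point: its class is the image of the point. -/
noncomputable def kp (a b c : L) : (WC a b c).toAffine.Point → L[X]
  | .zero => 1
  | .some x _ _ => C x - X

/-- The classes in the set `RcG` with `Loc2`. -/
def RcL (K : Type) [Field K] [NumberField K] (T : Finset (HeightOneSpectrum (𝓞 K)))
    (f : (𝓞 K)[X]) : Set ((AdjoinRoot (fk K f))ˣ ⧸ SqG (fk K f)) :=
  {ξ | ∃ (u : (AdjoinRoot (fk K f))ˣ) (α : K[X]),
    (QuotientGroup.mk u : (AdjoinRoot (fk K f))ˣ ⧸ SqG (fk K f)) = ξ ∧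
    AdjoinRoot.mk (fk K f) α = (u : AdjoinRoot (fk K f)) ∧ UOut T f α ∧ Loc2 f α}

end Defs

/-! ### Units modulo squares -/

/-- ADS: the unramified extension `S = O[x]/(F)` of a complete discrete valuation ring.  (`O[x]` is
factorial and `F` is irreducible, so `S` is a domain; the maximal ideals of `S` lie over that of `O`
(integrality) and `S/(ϖ) = k[x]/(F)` is a field, so `S` is local with maximal ideal `(ϖ)`,
noetherian; `S` is a free `O`-module with basis `1, x, ..` and `(ϖ)^n S` is `ϖ^n` in each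
coordinate, so it is complete.) -/
def ADSStmt : Prop :=
  ∀ (O : Type) [CommRing O] [IsDomain O] [IsDiscreteValuationRing O],
    IsAdicComplete (IsLocalRing.maximalIdeal O) O → Finite (IsLocalRing.ResidueField O) →
    ∀ F : O[X], F.Monic → Irreducible (F.map (IsLocalRing.residue O)) →
    ∃ (_ : IsDomain (AdjoinRoot F)) (_ : IsDiscreteValuationRing (AdjoinRoot F)),
      IsAdicComplete (IsLocalRing.maximalIdeal (AdjoinRoot F)) (AdjoinRoot F) ∧
      Finite (IsLocalRing.ResidueField (AdjoinRoot F)) ∧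
      ∀ ϖ : O, Irreducible ϖ → Irreducible (AdjoinRoot.of F ϖ)

/-- CRD: `S/(2)` is free over `O/(2)`. -/
def CRDStmt : Prop :=
  ∀ (O : Type) [CommRing O] (F : O[X]) (a : O), F.Monic → Finite (O ⧸ Ideal.span {a}) →
    Nat.card (AdjoinRoot F ⧸ Ideal.span {AdjoinRoot.of F a}) =
      Nat.card (O ⧸ Ideal.span {a}) ^ F.natDegree

/-- USQ: the number of units modulo squares is `2 q^e`.  (`G = (S/4ϖ)ˣ`; `1 + 4 ϖ w = (1 + 2 z)²`
with `z² + z = ϖ w` (`IsAdicComplete.henselianRing` or successive approximation), so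
`Sˣ/sq = G/G²` (every unit of `S/4ϖ` is the image of a unit, `S` is local), `#(G/G²) = #G[2]`, and
`u² = 1` modulo `4 ϖ` if and only if `u = 1 + 2 w`, `w (w + 1) = 0` modulo `ϖ`: these are the
classes of `1 + 2 w`, `w` modulo `2 ϖ`, with `w = 0` or `w = -1` modulo `ϖ`: `2 q^e`.) -/
def USQStmt : Prop :=
  ∀ (S : Type) [CommRing S] [IsDomain S] [IsDiscreteValuationRing S],
    IsAdicComplete (IsLocalRing.maximalIdeal S) S → Finite (IsLocalRing.ResidueField S) →
    (2 : S) ≠ 0 → ¬ IsUnit (2 : S) →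
    Finite (Sˣ ⧸ (powMonoidHom 2 : Sˣ →* Sˣ).range) ∧ Finite (S ⧸ Ideal.span {(2 : S)}) ∧
    Nat.card (Sˣ ⧸ (powMonoidHom 2 : Sˣ →* Sˣ).range) = 2 * Nat.card (S ⧸ Ideal.span {(2 : S)})

/-- VCN: the classes of square norm.  (`u = ϖ^n s`, `s` a unit of `S = O[x]/(F)`; the norm
`ϖ^(3n) N(s)` is a square, so `n` is even and `N(s)` is a square of a unit of `O`.  The norm from
`Sˣ/sq` to `Oˣ/sq` is onto since `N(a) = a³`, so its kernel has `2 N³ / (2 N) = N²` elements, where
`N = #(O/2)`: ADS, CRD, USQ; the kernel is mapped onto `VL`.) -/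
def VCNStmt : Prop :=
  ADSStmt → CRDStmt → USQStmt →
  ∀ (L : Type) [Field L] (O : ValuationSubring L), DyL L O → ∀ F : O[X], F.Monic →
    F.natDegree = 3 → Irreducible (rd O F) →
    (VL (oL O F)).Finite ∧ (VL (oL O F)).ncard ≤ Nat.card (O ⧸ Ideal.span {(2 : O)}) ^ 2

/-! ### Points -/

/-- KPH: the classes of points are additive.  (The line through the points:
`l² - f = -(x - x₁) (x - x₂) (x - x₃)`; Mathlib: `WeierstrassCurve.Affine.addPolynomial_slope`,
`addPolynomial`.  The cases of the point zero and of `Q = - P` are trivial.) -/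
def KPHStmt : Prop :=
  ∀ (L : Type) [Field L] [DecidableEq L], (2 : L) ≠ 0 → ∀ (a b c : L) (P Q : (WC a b c).toAffine.Point),
    ∃ l : L[X], (X ^ 3 + C a * X ^ 2 + C b * X + C c) ∣
      kp a b c P * kp a b c Q * kp a b c (P + Q) - l ^ 2

/-- KPK: the points whose class is trivial are doubles.  (`DIVK.half` in `H36/T1/DIVK`, and the
duplication formula; `P` and `-P` have the same class.) -/
def KPKStmt : Prop :=
  ∀ (L : Type) [Field L] [DecidableEq L], (2 : L) ≠ 0 → ∀ a b c : L,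
    Irreducible (X ^ 3 + C a * X ^ 2 + C b * X + C c : L[X]) →
    ∀ (P : (WC a b c).toAffine.Point) (l : L[X]),
    (X ^ 3 + C a * X ^ 2 + C b * X + C c) ∣ kp a b c P - l ^ 2 →
    ∃ R : (WC a b c).toAffine.Point, P = R + R

/-- PTS: at least `#(O/2)` points which are different modulo doubles (helper66). -/
def PTSStmt : Prop :=
  ∀ (L : Type) [Field L] [DecidableEq L] (O : ValuationSubring L), DyL L O → ∀ a b c : O,
    Irreducible (rd O (X ^ 3 + C a * X ^ 2 + C b * X + C c)) →
    ∃ s : Finset (WC (a : L) (b : L) (c : L)).toAffine.Point,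
      Nat.card (O ⧸ Ideal.span {(2 : O)}) ≤ s.card ∧
      ∀ P ∈ s, ∀ Q ∈ s, P ≠ Q → ∀ R, P - Q ≠ R + R

/-- WCN: the classes of divisors.  (The classes of the points of PTS are different: if
`kp P * kp Q` is a square modulo `f`, so is `kp (P - Q)` by KPH (`kp (-Q) = kp Q`), and `P - Q` is a
double by KPK; `kp P` is `LocSol` (`u = X - C x`, `w = C y`); `f` is irreducible over `L`.) -/
def WCNStmt : Prop :=
  KPHStmt → KPKStmt → PTSStmt →
  ∀ (L : Type) [Field L] (O : ValuationSubring L), DyL L O → ∀ F : O[X], F.Monic →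
    F.natDegree = 3 → Irreducible (rd O F) → (WL (oL O F)).Finite →
    Nat.card (O ⧸ Ideal.span {(2 : O)}) ≤ (WL (oL O F)).ncard

/-- WVL: the classes of divisors have square norm and are a group.  (RDU, MUL; the norm of
`C x - X` is `f(x)`, `H70/HYP/NMU` `norm_sub`.) -/
def WVLStmt : Prop :=
  RDUStmt → MULStmt → ∀ (L : Type) [Field L] (f : L[X]), f.Monic → f.natDegree = 3 →
    Irreducible f → (WL f ⊆ VL f ∧ 1 ∈ WL f ∧ ∀ x ∈ WL f, ∀ y ∈ WL f, x * y⁻¹ ∈ WL f)

/-! ### Completions -/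

/-- CPU: uniqueness of the completion.  (`V = {x : K | ι x ∈ O}`; a uniformizer `ϖ` in `K`;
`V/ϖ^n → O/ϖ^n` is bijective by density; `O → O'` from `IsAdicComplete.liftRingHom`, then the field
of fractions.) -/
def CPUStmt : Prop :=
  ∀ (K : Type) [Field K] (L : Type) [Field L] (O : ValuationSubring L) (ι : K →+* L)
    (L' : Type) [Field L'] (O' : ValuationSubring L') (ι' : K →+* L'), Cpl K L O ι →
    Cpl K L' O' ι' → (∀ x : K, ι x ∈ O ↔ ι' x ∈ O') → ∃ σ : L →+* L', ∀ x, σ (ι x) = ι' x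

/-- CPD: the completions of a number field are at primes.  (`P` is the set of the `a` with `ι a` in
the maximal ideal; the algebraic integers are in every valuation ring.) -/
def CPDStmt : Prop :=
  ∀ (K : Type) [Field K] [NumberField K] (L : Type) [Field L] (O : ValuationSubring L)
    (ι : K →+* L), Cpl K L O ι → ∃ P : HeightOneSpectrum (𝓞 K), (∀ x : K, ι x ∈ O ↔ x ∈ RP K P) ∧
      ((2 : 𝓞 K) ∈ P.asIdeal ↔ (2 : L)⁻¹ ∉ O)

/-- CPF: `f` over the completion at `P`, if it is irreducible modulo `P`. -/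
def CPFStmt : Prop :=
  ∀ (K : Type) [Field K] [NumberField K] (P : HeightOneSpectrum (𝓞 K)) (L : Type) [Field L]
    (O : ValuationSubring L) (ι : K →+* L), Cpl K L O ι → (∀ x : K, ι x ∈ O ↔ x ∈ RP K P) →
    ∀ (f ρ : (𝓞 K)[X]) (n : ℕ), f.Monic → OkP n P.asIdeal ρ → Zer P.asIdeal (f - ρ) →
    ∃ F : O[X], F.Monic ∧ F.natDegree = n ∧ oL O F = (fk K f).map ι ∧ Irreducible (rd O F)

/-- NP2: the product of the local indices.  (`O/2O = 𝓞 K / P^e` if `P^e` is the exact power of `P`
in `(2)`; `∏ absNorm P ^ e = absNorm (2) = 2^n`.) -/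
def NP2Stmt : Prop :=
  ∀ (K : Type) [Field K] [NumberField K] (A : Finset (HeightOneSpectrum (𝓞 K))),
    (∀ P : HeightOneSpectrum (𝓞 K), P ∈ A ↔ (2 : 𝓞 K) ∈ P.asIdeal) →
    ∀ (L : HeightOneSpectrum (𝓞 K) → Type) [∀ P, Field (L P)] (O : ∀ P, ValuationSubring (L P))
    (ι : ∀ P, K →+* L P), (∀ P ∈ A, Cpl K (L P) (O P) (ι P)) →
    (∀ P ∈ A, ∀ x : K, ι P x ∈ O P ↔ x ∈ RP K P) →
    ∏ P ∈ A, Nat.card (O P ⧸ Ideal.span {(2 : O P)}) = 2 ^ Module.finrank ℚ K

/-- IDXN: the index of the classes with `Loc2`.  (For a finite subgroup `H` of classes of square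
norm and one dyadic completion, the classes of `H` in `WL` have index at most
`#VL / #WL ≤ N`: VCN, WCN, WVL, CPF, `SqG` and `RcG` are mapped by `AdjoinRoot.map`; induction over
the primes above `2`; CMP2 (existence), CPD and CPU: `Loc2` if and only if `LocSol` over the chosen
completions; NP2.) -/
def IDXNStmt : Prop :=
  VCNStmt → WCNStmt → WVLStmt → CMP2Stmt → CPUStmt → CPDStmt → CPFStmt → NP2Stmt →
  ADSStmt → CRDStmt → USQStmt → KPHStmt → KPKStmt → PTSStmt → RDUStmt → MULStmt →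
  ∀ (K : Type) [Field K] [NumberField K] (D : DatN K) (Y : ℕ), D.Ok → 1 ≤ Y → ∀ f ∈ FamN D Y,
    (RcG K D.T f).Finite →
    (RcG K D.T f).ncard ≤ 2 ^ Module.finrank ℚ K * (RcL K D.T f).ncard

end Pool.NF
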